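import Pool.Agent.V11258.AT.Generic

set_option autoImplicit false

/-! Every almost total enumeration degree is graph-cototal. -/

namespace Pool.Agent.Results.MP_c7b1db_lc.AlmostTotalGraphCototal

open Encodable Pool.Agent.Helper446 Pool.Agent.Helper446.RE Pool.Agent.Helper446.CB
open Pool.Agent.H288R3.CGC Pool.Agent.V11258.AT Set Filter Topology

/-- The finite set with canonical index `e`: the members of the list coded by `e`. -/
def D (e : ℕ) : Set ℕ := {x | x ∈ Denumerable.ofNat (List ℕ) e}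

/-- Enumeration reducibility. -/
def ERed (A B : Set ℕ) : Prop :=
  ∃ Ψ : Set ℕ, REPred (fun n => n ∈ Ψ) ∧ ∀ n, n ∈ A ↔ ∃ e, Nat.pair n e ∈ Ψ ∧ D e ⊆ B

/-- Having the same enumeration degree. -/
def EEquiv (A B : Set ℕ) : Prop := ERed A B ∧ ERed B A

/-- The join of two sets. -/
def join (A B : Set ℕ) : Set ℕ := {n | (∃ m ∈ A, n = 2 * m) ∨ ∃ m ∈ B, n = 2 * m + 1}

/-- The enumeration degree of `A` is total: it contains a set `T` whose complement is enumeration
reducible to `T`. -/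
def TotalDegree (A : Set ℕ) : Prop := ∃ T : Set ℕ, EEquiv A T ∧ ERed Tᶜ T

/-- The enumeration degree of `A` is almost total. -/
def AlmostTotal (A : Set ℕ) : Prop := ∀ B : Set ℕ, ERed B A ∨ TotalDegree (join A B)

/-- The graph of a function. -/
def Graph (f : ℕ → ℕ) : Set ℕ := {z | f z.unpair.1 = z.unpair.2}

/-- The enumeration degree of `A` is graph-cototal. -/
def GraphCototal (A : Set ℕ) : Prop := ∃ f : ℕ → ℕ, EEquiv A (Graph f)ᶜ

theorem ered_iff (A B : Set ℕ) : ERed A B ↔ EIn B (fun y : ℕ => y ∈ A) := by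
  constructor
  · rintro ⟨Ψ, h1, h2⟩
    refine ⟨fun n c => Nat.pair n (encode c) ∈ Ψ, RE.comp h1 (f := fun x : ℕ × List ℕ =>
      Nat.pair x.1 (encode x.2)) (by fun_prop), fun n => ?_⟩
    refine (h2 n).trans ?_
    constructor
    · rintro ⟨e, h3, h4⟩
      refine ⟨Denumerable.ofNat (List ℕ) e, ?_, fun i hi => h4 hi⟩
      show Nat.pair n (encode (Denumerable.ofNat (List ℕ) e)) ∈ Ψ
      rw [Denumerable.encode_ofNat]; exact h3
    · rintro ⟨c, h3, h4⟩
      refine ⟨encode c, h3, fun i hi => h4 i ?_⟩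
      unfold D at hi
      rw [Set.mem_ofPred_eq, Denumerable.ofNat_encode] at hi
      exact hi
  · rintro ⟨R, h1, h2⟩
    refine ⟨{z | ∃ c : List ℕ, encode c = z.unpair.2 ∧ R z.unpair.1 c}, ?_, fun n => ?_⟩
    · refine RE.ex (p := fun (z : ℕ) (c : List ℕ) => encode c = z.unpair.2 ∧ R z.unpair.1 c) ?_
      refine RE.and (RE.eq (by fun_prop) (by fun_prop)) ?_
      exact RE.comp h1 (f := fun x : ℕ × List ℕ => (x.1.unpair.1, x.2)) (by fun_prop)
    · refine (h2 n).trans ?_
      constructor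
      · rintro ⟨c, h3, h4⟩
        refine ⟨encode c, ⟨c, ?_, ?_⟩, fun i hi => h4 i ?_⟩
        · rw [Nat.unpair_pair]
        · rw [Nat.unpair_pair]; exact h3
        · unfold D at hi
          rw [Set.mem_ofPred_eq, Denumerable.ofNat_encode] at hi
          exact hi
      · rintro ⟨e, ⟨c, h3, h4⟩, h5⟩
        rw [Nat.unpair_pair] at h3 h4
        refine ⟨c, h4, fun i hi => h5 ?_⟩
        have h3' : encode c = e := h3
        rw [← h3']
        unfold D
        rw [Set.mem_ofPred_eq, Denumerable.ofNat_encode]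
        exact hi

theorem graph_eq (f : ℕ → ℕ) : (Graph f)ᶜ = {k : ℕ | f (Nat.unpair k).1 ≠ (Nat.unpair k).2} := rfl

theorem total_case {A : Set ℕ} (h : TotalDegree A) : GraphCototal A := by
  obtain ⟨T, ⟨h1, h2⟩, h3⟩ := h
  rw [ered_iff] at h1 h2 h3
  obtain ⟨f, h4, h5⟩ := exists_graph (N := T) (δ := ℕ) 0 (fun y l => y ∈ T ∧ l = 0)
    (fun y hy => ⟨0, hy, rfl⟩) (fun y l l' hl hl' => hl.2.trans hl'.2.symm)
    (fun y l hl => hl.1) (by
      have h6 : EIn T fun v : ℕ × ℕ => v.1 ∈ Tᶜ ∨ v.2 ≠ 0 :=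
        EIn.or (h3.comp (f := fun v : ℕ × ℕ => v.1) (by fun_prop))
          (EIn.of_re (RE.ne (by fun_prop) (by fun_prop)))
      refine h6.of_eq fun v => ?_
      rw [not_and_or]
      exact Iff.rfl)
  refine ⟨f, ?_, ?_⟩
  · rw [ered_iff, graph_eq]
    exact ein_trans h1 h4
  · rw [ered_iff, graph_eq]
    exact ein_trans h5 h2

/-! ### Baire measurability -/

theorem bm_const (p : Prop) : BaireMeasurableSet {_g : ℕ → Bool | p} := by
  by_cases hp : p
  · have : {_g : ℕ → Bool | p} = univ := by ext; simp [hp]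
    rw [this]; exact isOpen_univ.baireMeasurableSet
  · have : {_g : ℕ → Bool | p} = ∅ := by ext; simp [hp]
    rw [this]; exact isOpen_empty.baireMeasurableSet

theorem bm_imp {p q : (ℕ → Bool) → Prop} (hp : BaireMeasurableSet {g | p g})
    (hq : BaireMeasurableSet {g | q g}) : BaireMeasurableSet {g | p g → q g} := by
  have : {g | p g → q g} = {g | p g}ᶜ ∪ {g | q g} := by
    ext g
    simp only [mem_union, mem_compl_iff, Set.mem_ofPred_eq]
    tauto
  rw [this]
  exact hp.compl.union hq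

theorem bm_not {p : (ℕ → Bool) → Prop} (hp : BaireMeasurableSet {g | p g}) :
    BaireMeasurableSet {g | ¬ p g} := hp.compl

theorem bm_and {p q : (ℕ → Bool) → Prop} (hp : BaireMeasurableSet {g | p g})
    (hq : BaireMeasurableSet {g | q g}) : BaireMeasurableSet {g | p g ∧ q g} := hp.inter hq

theorem bm_iff {p q : (ℕ → Bool) → Prop} (hp : BaireMeasurableSet {g | p g})
    (hq : BaireMeasurableSet {g | q g}) : BaireMeasurableSet {g | p g ↔ q g} := by
  have : {g | p g ↔ q g} = {g | (p g → q g) ∧ (q g → p g)} := by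
    ext g
    simp only [Set.mem_ofPred_eq]
    exact ⟨fun h => ⟨h.1, h.2⟩, fun h => ⟨h.1, h.2⟩⟩
  rw [this]
  exact bm_and (bm_imp hp hq) (bm_imp hq hp)

theorem bm_all {ι : Type} [Countable ι] {p : ι → (ℕ → Bool) → Prop}
    (hp : ∀ i, BaireMeasurableSet {g | p i g}) : BaireMeasurableSet {g | ∀ i, p i g} := by
  have : {g | ∀ i, p i g} = ⋂ i, {g | p i g} := by
    ext g
    simp only [mem_iInter, Set.mem_ofPred_eq]
  rw [this]
  exact BaireMeasurableSet.iInter hp

theorem bm_ex {ι : Type} [Countable ι] {p : ι → (ℕ → Bool) → Prop}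
    (hp : ∀ i, BaireMeasurableSet {g | p i g}) : BaireMeasurableSet {g | ∃ i, p i g} := by
  have : {g | ∃ i, p i g} = ⋃ i, {g | p i g} := by
    ext g
    simp only [mem_iUnion, Set.mem_ofPred_eq]
  rw [this]
  exact BaireMeasurableSet.iUnion hp

theorem bm_op (c : ℕ) {F : (ℕ → Bool) → Set ℕ} (hF : ∀ x, BaireMeasurableSet {g | x ∈ F g})
    (a : ℕ) : BaireMeasurableSet {g | op c (F g) a} :=
  bm_ex fun _ => bm_and (bm_const _) (bm_all fun _ => bm_imp (bm_const _) (hF _))

theorem bm_BG (x : ℕ) : BaireMeasurableSet {G : ℕ → Bool | x ∈ BG G} := by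
  have : IsOpen {G : ℕ → Bool | x ∈ BG G} :=
    (isOpen_discrete {b | b = decide (x % 2 = 0)}).preimage
      (continuous_apply (A := fun _ : ℕ => Bool) (x / 2))
  exact this.baireMeasurableSet

theorem bm_jn (A : Set ℕ) (x : ℕ) : BaireMeasurableSet {G : ℕ → Bool | x ∈ jn A (BG G)} := by
  have : {G : ℕ → Bool | x ∈ jn A (BG G)} =
      {G | (∃ m ∈ A, x = 2 * m)} ∪ {G | ∃ m, m ∈ BG G ∧ x = 2 * m + 1} := rfl
  rw [this]
  exact (bm_const _).union (bm_ex fun m => bm_and (bm_BG m) (bm_const _))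

/-- a countable cover by Baire measurable sets -/
theorem baire {ι : Type} [Countable ι] (U : ι → Set (ℕ → Bool))
    (hU : ∀ i, BaireMeasurableSet (U i)) (hcov : ∀ G, ∃ i, G ∈ U i) :
    ∃ i, ∃ (s0 : List Bool) (Dn : Set (ℕ → Bool)), Dense Dn ∧ ∀ G ∈ Dn, Ext s0 G → G ∈ U i := by
  have hB : BaireSpace (ℕ → Bool) := by
    let := TopologicalSpace.upgradeIsCompletelyMetrizable (ℕ → Bool)
    infer_instance
  choose u hu1 hu2 using fun i => (hU i).residualEq_isOpen
  have hne : ∃ i, (u i).Nonempty := by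
    by_contra hcon
    push Not at hcon
    have h1 : ∀ i, (U i)ᶜ ∈ residual (ℕ → Bool) := by
      intro i
      have h2 := hu2 i
      rw [hcon i] at h2
      filter_upwards [h2] with g hg
      intro hgU
      have : (∅ : Set (ℕ → Bool)) g := by
        rw [← hg]; exact hgU
      exact this
    have h2 : ⋂ i, (U i)ᶜ ∈ residual (ℕ → Bool) := countable_iInter_mem.2 h1
    obtain ⟨g, hg⟩ := (dense_of_mem_residual h2).nonempty
    rw [mem_iInter] at hg
    obtain ⟨i, hi⟩ := hcov g
    exact hg i hi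
  obtain ⟨i, g0, hg0⟩ := hne
  obtain ⟨I, v, h1, h2⟩ := isOpen_pi_iff.1 (hu1 i) g0 hg0
  let L : ℕ := I.sup id + 1
  refine ⟨i, sg g0 L, {g | g ∈ U i ↔ g ∈ u i}, dense_of_mem_residual ?_, ?_⟩
  · filter_upwards [hu2 i] with g hg
    exact iff_of_eq hg
  · intro G hG hE
    refine hG.2 (h2 ?_)
    intro x hx
    have hxL : x < L := Nat.lt_succ_of_le (Finset.le_sup (f := id) hx)
    have h3 := hE x (by rw [sg_length]; exact hxL)
    rw [sg_getD hxL] at h3
    rw [h3]
    exact (h1 x hx).2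

theorem jn_eq (A B : Set ℕ) : jn A B = join A B := rfl

/-- **Main theorem.** Every almost total enumeration degree is graph-cototal. -/
theorem result (A : Set ℕ) (h : AlmostTotal A) : GraphCototal A := by
  by_cases hT : TotalDegree A
  · exact total_case hT
  let U : ℕ ⊕ (ℕ × ℕ × ℕ) → Set (ℕ → Bool) := fun i =>
    match i with
    | Sum.inl c => {G | ∀ a, a ∈ BG G ↔ op c A a}
    | Sum.inr p => {G | (∀ a, op p.1 (jn A (BG G)) a ↔ ¬ op p.2.1 (jn A (BG G)) a) ∧
        ∀ a, a ∈ A ↔ op p.2.2 {n | op p.1 (jn A (BG G)) n} a}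
  have hU : ∀ i, BaireMeasurableSet (U i) := by
    rintro (c | p)
    · exact bm_all fun a => bm_iff (bm_BG a) (bm_const _)
    · have h1 : ∀ c a, BaireMeasurableSet {G : ℕ → Bool | op c (jn A (BG G)) a} := fun c a =>
        bm_op c (fun x => bm_jn A x) a
      exact bm_and (bm_all fun a => bm_iff (h1 _ a) (bm_not (h1 _ a)))
        (bm_all fun a => bm_iff (bm_const _)
          (bm_op p.2.2 (F := fun G => {n | op p.1 (jn A (BG G)) n}) (fun x => h1 p.1 x) a))
  have hcov : ∀ G, ∃ i, G ∈ U i := by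
    intro G
    rcases h (BG G) with h1 | ⟨T, ⟨h1, h2⟩, h3⟩
    · rw [ered_iff] at h1
      obtain ⟨c, hc⟩ := exists_op h1
      exact ⟨Sum.inl c, hc⟩
    · rw [ered_iff] at h1 h2 h3
      rw [← jn_eq] at h1 h2
      obtain ⟨c1, hc1⟩ := exists_op h2
      obtain ⟨c0, hc0⟩ := exists_op (ein_trans h3 h2)
      have hAT : EIn T fun y : ℕ => y ∈ A := by
        refine (h1.comp (f := fun y : ℕ => 2 * y) (by fun_prop)).of_eq fun y => ?_
        constructor
        · rintro (⟨m, hm, h4⟩ | ⟨m, hm, h4⟩)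
          · have : y = m := by omega
            rw [this]; exact hm
          · omega
        · intro hy; exact Or.inl ⟨y, hy, rfl⟩
      obtain ⟨d, hd⟩ := exists_op hAT
      have hTe : {n | op c1 (jn A (BG G)) n} = T := by
        ext n; exact (hc1 n).symm
      refine ⟨Sum.inr (c1, c0, d), ?_, ?_⟩
      · intro a
        show op c1 (jn A (BG G)) a ↔ ¬ op c0 (jn A (BG G)) a
        rw [← hc1 a, ← hc0 a]
        exact not_not.symm
      · intro a
        show a ∈ A ↔ op d {n | op c1 (jn A (BG G)) n} a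
        rw [hTe]
        exact hd a
  obtain ⟨i, s0, Dn, hD, hi⟩ := baire U hU hcov
  cases i with
  | inl c =>
    exfalso
    have hmeet : ∀ b : Bool, ∃ G ∈ Dn, Ext (s0 ++ [b]) G := by
      intro b
      obtain ⟨G, hG1, hG2⟩ := hD.inter_open_nonempty _ (isOpen_Ext (s0 ++ [b]))
        ⟨fun i => (s0 ++ [b]).getD i false, fun i _ => rfl⟩
      exact ⟨G, hG2, hG1⟩
    have hval : ∀ b G, G ∈ Dn → Ext (s0 ++ [b]) G →
        (2 * s0.length ∈ BG G ↔ op c A (2 * s0.length)) ∧ G s0.length = b := by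
      intro b G hG hE
      have hE0 : Ext s0 G := by
        intro i hi
        rw [hE i (by rw [List.length_append]; omega), List.getD_eq_getElem?_getD,
          List.getD_eq_getElem?_getD, List.getElem?_append_left hi]
      refine ⟨hi G hG hE0 _, ?_⟩
      rw [hE s0.length (by simp)]
      simp
    obtain ⟨G, hG1, hG2⟩ := hmeet true
    obtain ⟨G', hG1', hG2'⟩ := hmeet false
    obtain ⟨h1, h2⟩ := hval true G hG1 hG2
    obtain ⟨h1', h2'⟩ := hval false G' hG1' hG2'
    have h3 : 2 * s0.length ∈ BG G := by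
      show G (2 * s0.length / 2) = decide (2 * s0.length % 2 = 0)
      have e1 : 2 * s0.length / 2 = s0.length := by omega
      have e2 : 2 * s0.length % 2 = 0 := by omega
      rw [e1, e2, h2]; simp
    have h4 : 2 * s0.length ∈ BG G' := h1'.2 (h1.1 h3)
    have h5 : G' (2 * s0.length / 2) = decide (2 * s0.length % 2 = 0) := h4
    have e1 : 2 * s0.length / 2 = s0.length := by omega
    have e2 : 2 * s0.length % 2 = 0 := by omega
    rw [e1, e2, h2'] at h5
    exact absurd h5 (by simp)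
  | inr p =>
    obtain ⟨f, h1, h2⟩ := of_generic (A := A) (c1 := p.1) (c0 := p.2.1) (d0 := p.2.2) hD
      (fun G hG hE => hi G hG hE)
    refine ⟨f, ?_, ?_⟩
    · rw [ered_iff, graph_eq]; exact h1
    · rw [ered_iff, graph_eq]; exact h2

end Pool.Agent.Results.MP_c7b1db_lc.AlmostTotalGraphCototal
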